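import Pool.Agent.R713.Uq
import Pool.Agent.R713.Explicit

/-!
# MP_32472a_al: a Leonard pair not coming from the equitable presentation of `U_q(sl₂)`

Over `ℚ`, with `q = 2` and `d = 3`.
-/

set_option autoImplicit false

namespace Pool.Agent.Results.MP_32472a_al.NoUqModule

open Pool.Agent.R713 Module Matrix

def MA : Matrix (Fin 4) (Fin 4) ℚ := !![63, 0, 0, 0; 1, 12, 0, 0; 0, 1, -12, 0; 0, 0, 1, -63]

def MB : Matrix (Fin 4) (Fin 4) ℚ :=
  !![63, -3213, 0, 0; 0, 12, -1800, 0; 0, 0, -12, -3213; 0, 0, 0, -63]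

def PA : Matrix (Fin 4) (Fin 4) ℚ :=
  !![481950, 0, 0, 0; 9450, 1800, 0, 0; 126, 75, 51, 0; 1, 1, 1, 1]

def QA : Matrix (Fin 4) (Fin 4) ℚ :=
  !![1/481950, 0, 0, 0; -1/91800, 1/1800, 0, 0; 1/91800, -1/1224, 1/51, 0;
    -1/481950, 1/3825, -1/51, 1]

def PB : Matrix (Fin 4) (Fin 4) ℚ := !![1, 63, 3213, 38556; 0, 1, 75, 1512; 0, 0, 1, 63; 0, 0, 0, 1]

def QB : Matrix (Fin 4) (Fin 4) ℚ :=
  !![1, -63, 1512, -38556; 0, 1, -75, 3213; 0, 0, 1, -63; 0, 0, 0, 1]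

theorem hPA : PA * QA = 1 := by decide +kernel

theorem hPB : PB * QB = 1 := by decide +kernel

theorem diagA : QA * MA * PA = Matrix.diagonal ![63, 12, -12, -63] := by decide +kernel

theorem diagB : QB * MB * PB = Matrix.diagonal ![63, 12, -12, -63] := by decide +kernel

theorem triB : IrrTridiag (QA * MB * PA) := by
  unfold IrrTridiag
  decide +kernel

theorem triA : IrrTridiag (QB * MA * PB) := by
  unfold IrrTridiag
  decide +kernel

theorem pairBeta : LeonardPairBeta 3 (Matrix.toLin' MA) (Matrix.toLin' MB)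
    (2 ^ 2 + (2 ^ 2)⁻¹ : ℚ) := by
  refine ⟨colBasis PA QA hPA, colBasis PB QB hPB, ?_, ?_, ?_, ?_, ?_, ?_⟩
  · rw [toMatrix_colBasis, diagA]
    exact Matrix.isDiag_diagonal _
  · rw [toMatrix_colBasis]
    exact triB
  · rw [toMatrix_colBasis, diagB]
    exact Matrix.isDiag_diagonal _
  · rw [toMatrix_colBasis]
    exact triA
  · rw [toMatrix_colBasis, diagA]
    decide +kernel
  · rw [toMatrix_colBasis, diagB]
    decide +kernel

/-- vectors from the rows of a matrix -/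
def rows (F : Matrix (Fin 4) (Fin 4) ℚ) (i : ℕ) : Fin 4 → ℚ := F (Fin.ofNat 4 i)

def seq (v : Fin 4 → ℚ) (i : ℕ) : ℚ := v (Fin.ofNat 4 i)

def F1 : Matrix (Fin 4) (Fin 4) ℚ := 1

def F2 : Matrix (Fin 4) (Fin 4) ℚ :=
  !![1, 0, 0, 0; 126, 1, 0, 0; 9450, 150, 1, 0; 481950, 9450, 126, 1]

def F3 : Matrix (Fin 4) (Fin 4) ℚ :=
  !![38556, 1512, 63, 1; 0, -38556, -3213, -63; 0, 0, 38556, 1512; 0, 0, 0, -38556]

def F4 : Matrix (Fin 4) (Fin 4) ℚ :=
  !![38556, 1512, 63, 1; 4858056, 151956, 4725, 63; 364354200, 8505000, 151956, 1512;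
    18582064200, 364354200, 4858056, 38556]

def up : Fin 4 → ℚ := ![63, 12, -12, -63]
def dn : Fin 4 → ℚ := ![-63, -12, 12, 63]
def ph : Fin 4 → ℚ := ![-3213, -1800, -3213, 0]
def ph' : Fin 4 → ℚ := ![3213, 1800, 3213, 0]

theorem bidiag_of (F : Matrix (Fin 4) (Fin 4) ℚ) (a b r : Fin 4 → ℚ)
    (h0 : F 0 ≠ 0) (h3 : F 3 ≠ 0)
    (hA : ∀ i : Fin 3, MA *ᵥ F i.castSucc = a i.castSucc • F i.castSucc + F i.succ)
    (hAl : MA *ᵥ F 3 = a 3 • F 3) (hB0 : MB *ᵥ F 0 = b 0 • F 0)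
    (hB : ∀ i : Fin 3, MB *ᵥ F i.succ = b i.succ • F i.succ + r i.castSucc • F i.castSucc) :
    Bidiag 3 (Matrix.toLin' MA) (Matrix.toLin' MB) (rows F) (seq a) (seq b) (fun _ => 1)
      (seq r) where
  ne0 := h0
  ned := h3
  A_lt i hi := by
    have := hA ⟨i, hi⟩
    rw [Matrix.toLin'_apply, one_smul]
    interval_cases i <;> exact this
  A_last := by
    rw [Matrix.toLin'_apply]
    exact hAl
  B_zero := by
    rw [Matrix.toLin'_apply]
    exact hB0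
  B_succ i hi := by
    have := hB ⟨i, hi⟩
    rw [Matrix.toLin'_apply]
    interval_cases i <;> exact this

theorem g1 : Bidiag 3 (Matrix.toLin' MA) (Matrix.toLin' MB) (rows F1) (seq up) (seq up)
    (fun _ => 1) (seq ph) :=
  bidiag_of F1 up up ph (by decide +kernel) (by decide +kernel) (by decide +kernel)
    (by decide +kernel) (by decide +kernel) (by decide +kernel)

theorem g2 : Bidiag 3 (Matrix.toLin' MA) (Matrix.toLin' MB) (rows F2) (seq dn) (seq up)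
    (fun _ => 1) (seq ph') :=
  bidiag_of F2 dn up ph' (by decide +kernel) (by decide +kernel) (by decide +kernel)
    (by decide +kernel) (by decide +kernel) (by decide +kernel)

theorem g3 : Bidiag 3 (Matrix.toLin' MA) (Matrix.toLin' MB) (rows F3) (seq up) (seq dn)
    (fun _ => 1) (seq ph') :=
  bidiag_of F3 up dn ph' (by decide +kernel) (by decide +kernel) (by decide +kernel)
    (by decide +kernel) (by decide +kernel) (by decide +kernel)

theorem g4 : Bidiag 3 (Matrix.toLin' MA) (Matrix.toLin' MB) (rows F4) (seq dn) (seq dn)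
    (fun _ => 1) (seq ph) :=
  bidiag_of F4 dn dn ph (by decide +kernel) (by decide +kernel) (by decide +kernel)
    (by decide +kernel) (by decide +kernel) (by decide +kernel)

theorem projCol (P Q : Matrix (Fin 4) (Fin 4) ℚ) (h : P * Q = 1) (i : Fin 4) (t : ℚ)
    (v : Fin 4 → ℚ) (hv : v = t • fun k => P k i) : projB (colBasis P Q h) i v = v := by
  rw [hv, ← colBasis_apply P Q h i]
  exact projB_smul _ _ _

/-- the final contradiction -/
theorem final (a₁ a₃ b₂ b₃ y0 σ : ℚ) (hy : 64 * y0 ^ 2 = 1) (hσ : σ ^ 2 = 1)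
    (h0 : (-(a₁ / y0 + a₃)) * (-((-189 / 256) * (b₂ / y0 + b₃))) = σ * 3213)
    (h1 : (-(a₁ / (4 * y0) + a₃)) * (-((-225 / 64) * (b₂ / (4 * y0) + b₃))) = σ * 1800)
    (h2 : (-(a₁ / (16 * y0) + a₃)) * (-((-189 / 16) * (b₂ / (16 * y0) + b₃))) = σ * 3213) :
    False := by
  have hy0 : y0 ≠ 0 := by
    rintro rfl
    norm_num at hy
  obtain ⟨s, hs⟩ : ∃ s : ℚ, s = y0⁻¹ := ⟨_, rfl⟩
  have hs2 : s ^ 2 = 64 := by
    rw [hs]
    field_simp
    linarith
  have e0 : ∀ t : ℚ, t / y0 = t * s := fun t => by rw [hs, div_eq_mul_inv]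
  have e1 : ∀ t : ℚ, t / (4 * y0) = t * s / 4 := fun t => by
    rw [hs]
    field_simp
  have e2 : ∀ t : ℚ, t / (16 * y0) = t * s / 16 := fun t => by
    rw [hs]
    field_simp
  rw [e0, e0] at h0
  rw [e1, e1] at h1
  rw [e2, e2] at h2
  have E0 : a₁ * b₂ * s ^ 2 + (a₁ * b₃ + a₃ * b₂) * s + a₃ * b₃ = -4352 * σ := by
    linear_combination (-256 / 189) * h0
  have E1 : a₁ * b₂ * s ^ 2 / 16 + (a₁ * b₃ + a₃ * b₂) * s / 4 + a₃ * b₃ = -512 * σ := by
    linear_combination (-64 / 225) * h1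
  have E2 : a₁ * b₂ * s ^ 2 / 256 + (a₁ * b₃ + a₃ * b₂) * s / 16 + a₃ * b₃ = -272 * σ := by
    linear_combination (-16 / 189) * h2
  have hu : a₁ * b₂ = -64 * σ := by
    linear_combination ((E0 - E1) * (4 / 3) - (E1 - E2) * (16 / 3)) / 60 - (a₁ * b₂ / 64) * hs2
  have hv : (a₁ * b₃ + a₃ * b₂) * s = 0 := by
    linear_combination (16 / 3) * (E1 - E2) - 20 * hu - (5 / 16 * (a₁ * b₂)) * hs2
  have hw : a₃ * b₃ = -256 * σ := by
    linear_combination E0 - 64 * hu - hv - (a₁ * b₂) * hs2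
  have hs0 : s ≠ 0 := by
    rintro rfl
    norm_num at hs2
  have hv' : a₁ * b₃ + a₃ * b₂ = 0 := (mul_eq_zero.1 hv).resolve_right hs0
  have h3 : (a₁ * b₃) ^ 2 = -16384 := by
    linear_combination (a₁ * b₃) * hv' - (a₃ * b₃) * hu - (-64 * σ) * hw - 16384 * hσ
  nlinarith [sq_nonneg (a₁ * b₃)]

theorem ph_eq : seq ph 0 = -3213 ∧ seq ph 1 = -1800 ∧ seq ph 2 = -3213 := by decide +kernel

theorem ph'_eq : seq ph' 0 = 3213 ∧ seq ph' 1 = 1800 ∧ seq ph' 2 = 3213 := by decide +kernel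

theorem no_module (X Xi Y Z : Module.End ℚ (Fin 4 → ℚ)) (hE : Equitable 2 X Xi Y Z)
    (hI : Irr X Xi Y Z) : ¬ (Comb X Y (Matrix.toLin' MA) ∧ Comb Y Z (Matrix.toLin' MB)) := by
  rintro ⟨⟨a₀, a₁, a₂, a₃, hA⟩, ⟨b₀, b₁, b₂, b₃, hB⟩⟩
  have hroot : ∀ n : ℕ, 0 < n → (2 : ℚ) ^ n ≠ 1 := by
    intro n hn
    exact ne_of_gt (one_lt_pow₀ (by norm_num) (by omega))
  have h := LeonardSystem.of_bases (colBasis PA QA hPA) (colBasis PB QB hPB) (Matrix.toLin' MA)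
    (Matrix.toLin' MB)
    (by rw [toMatrix_colBasis, diagA]; exact Matrix.isDiag_diagonal _)
    (by rw [toMatrix_colBasis]; exact triB)
    (by rw [toMatrix_colBasis, diagB]; exact Matrix.isDiag_diagonal _)
    (by rw [toMatrix_colBasis]; exact triA)
  obtain ⟨e, a, b, y, c, hy0, hy, hc0, hc, hc4, hb⟩ :=
    uq_bidiag (by norm_num) hroot hE hI h a₀ a₁ a₂ a₃ b₀ b₁ b₂ b₃ hA hB
  have y1 : y 1 = 4 * y 0 := by rw [hy 0]; norm_num
  have y2 : y 2 = 16 * y 0 := by rw [hy 1, y1]; ring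
  have y3 : y 3 = 64 * y 0 := by rw [hy 2, y2]; ring
  have c1 : c 1 = 3 / 4 * (y 0 ^ 2 - 1) := by rw [hc 0, hc0]; norm_num
  have c2 : c 2 = 4 * c 1 + 3 / 4 * (y 1 ^ 2 - 1) := by rw [hc 1]; norm_num
  have c3 : c 3 = 4 * c 2 + 3 / 4 * (y 2 ^ 2 - 1) := by rw [hc 2]; norm_num
  have c4 : c 4 = 4 * c 3 + 3 / 4 * (y 3 ^ 2 - 1) := by rw [hc 3]; norm_num
  have hy64 : 64 * y 0 ^ 2 = 1 := by
    have : c 4 = 0 := hc4
    rw [c4, c3, c2, c1, y1, y2, y3] at this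
    linarith
  have k1 : c 1 = -189 / 256 := by rw [c1]; linarith
  have k2 : c 2 = -225 / 64 := by rw [c2, k1, y1]; linarith
  have k3 : c 3 = -189 / 16 := by rw [c3, k2, y2]; linarith
  have fin' : ∀ σ : ℚ, σ ^ 2 = 1 →
      (-(a₁ / y 0 + a₃)) * (-(c (0 + 1) * (b₂ / y 0 + b₃))) = σ * 3213 →
      (-(a₁ / y 1 + a₃)) * (-(c (1 + 1) * (b₂ / y 1 + b₃))) = σ * 1800 →
      (-(a₁ / y 2 + a₃)) * (-(c (2 + 1) * (b₂ / y 2 + b₃))) = σ * 3213 → False := by
    intro σ hσ p0 p1 p2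
    rw [zero_add, k1] at p0
    rw [show (1 : ℕ) + 1 = 2 from rfl, k2, y1] at p1
    rw [show (2 : ℕ) + 1 = 3 from rfl, k3, y2] at p2
    exact final a₁ a₃ b₂ b₃ (y 0) σ hy64 hσ p0 p1 p2
  rcases h.four hb g1 g2 g3 g4
    (projCol PB QB hPB 0 1 _ (by decide +kernel))
    (projCol PA QA hPA 3 1 _ (by decide +kernel))
    (projCol PB QB hPB 0 1 _ (by decide +kernel))
    (projCol PA QA hPA 0 1 _ (by decide +kernel))
    (projCol PB QB hPB 3 1 _ (by decide +kernel))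
    (projCol PA QA hPA 3 (-38556) _ (by decide +kernel))
    (projCol PB QB hPB 3 1 _ (by decide +kernel))
    (projCol PA QA hPA 0 38556 _ (by decide +kernel)) with h1 | h1 | h1 | h1
  · exact fin' (-1) (by norm_num) (by rw [h1 0 (by norm_num), ph_eq.1]; norm_num)
      (by rw [h1 1 (by norm_num), ph_eq.2.1]; norm_num)
      (by rw [h1 2 (by norm_num), ph_eq.2.2]; norm_num)
  · exact fin' 1 (by norm_num) (by rw [h1 0 (by norm_num), ph'_eq.1])
      (by rw [h1 1 (by norm_num), ph'_eq.2.1])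
      (by rw [h1 2 (by norm_num), ph'_eq.2.2])
  · exact fin' 1 (by norm_num) (by rw [h1 0 (by norm_num), ph'_eq.1])
      (by rw [h1 1 (by norm_num), ph'_eq.2.1])
      (by rw [h1 2 (by norm_num), ph'_eq.2.2])
  · exact fin' (-1) (by norm_num) (by rw [h1 0 (by norm_num), ph_eq.1]; norm_num)
      (by rw [h1 1 (by norm_num), ph_eq.2.1]; norm_num)
      (by rw [h1 2 (by norm_num), ph_eq.2.2]; norm_num)

theorem result : (∀ n : ℕ, 0 < n → (2 : ℚ) ^ n ≠ 1) ∧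
    ∃ A B : Module.End ℚ (Fin 4 → ℚ), LeonardPairBeta 3 A B (2 ^ 2 + (2 ^ 2)⁻¹) ∧
      ∀ X Xi Y Z : Module.End ℚ (Fin 4 → ℚ), Equitable 2 X Xi Y Z → Irr X Xi Y Z →
        ¬ (Comb X Y A ∧ Comb Y Z B) :=
  ⟨fun n hn => ne_of_gt (one_lt_pow₀ (by norm_num) (by omega)), _, _, pairBeta, no_module⟩

end Pool.Agent.Results.MP_32472a_al.NoUqModule
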